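import Pool.Agent.Helper7.EC_E.GoalsS

/-!
# MP_ecc237_nt, PART E: packet MBD
-/

set_option autoImplicit false

open MeasureTheory Filter Topology Set

namespace EC237.ZE.PkMBD

open EC237 EC237.ZE

section one

variable (k : ℤ) (t Q : ℝ)

theorem nph (hQ : 0 < Q) (hQ2 : Q ^ 2 = t ^ 2 + (k:ℝ) ^ 2) : ‖ph k (t:ℂ)‖ ≤ 1 / Q := by
  have hk : |(k:ℝ)| ≤ Q := abs_le_of_sq_le_sq (by nlinarith [sq_nonneg t]) hQ.le
  have e : ph k (t:ℂ) = (((k:ℝ) / (t ^ 2 + (k:ℝ) ^ 2) : ℝ) : ℂ) := by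
    simp only [ph]; push_cast; ring
  rw [e, Complex.norm_real, Real.norm_eq_abs, abs_div, ← hQ2, abs_of_nonneg (by positivity : (0:ℝ) ≤ Q ^ 2),
    div_le_div_iff₀ (by positivity) hQ]
  nlinarith

theorem nmu (hQ : 0 < Q) (hQ2 : Q ^ 2 = t ^ 2 + (k:ℝ) ^ 2) : ‖mu0 k (t:ℂ)‖ ≤ 1 / Q := by
  have hk : |t| ≤ Q := abs_le_of_sq_le_sq (by nlinarith [sq_nonneg (k:ℝ)]) hQ.le
  have e : mu0 k (t:ℂ) = ((t / (t ^ 2 + (k:ℝ) ^ 2) : ℝ) : ℂ) := by
    simp only [mu0]; push_cast; ring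
  rw [e, Complex.norm_real, Real.norm_eq_abs, abs_div, ← hQ2, abs_of_nonneg (by positivity : (0:ℝ) ≤ Q ^ 2),
    div_le_div_iff₀ (by positivity) hQ]
  nlinarith

theorem nph1 (hQ : 0 < Q) (hQ2 : Q ^ 2 = t ^ 2 + (k:ℝ) ^ 2) : ‖ph1 k (t:ℂ)‖ ≤ 1 / Q ^ 2 := by
  have hk : |t ^ 2 - (k:ℝ) ^ 2| ≤ Q ^ 2 := by
    rw [abs_le]
    constructor <;> nlinarith [sq_nonneg t, sq_nonneg (k:ℝ)]
  have e : ph1 k (t:ℂ) = (((t ^ 2 - (k:ℝ) ^ 2) / (t ^ 2 + (k:ℝ) ^ 2) ^ 2 : ℝ) : ℂ) := by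
    simp only [ph1]; push_cast; ring
  rw [e, Complex.norm_real, Real.norm_eq_abs, abs_div, ← hQ2,
    abs_of_nonneg (by positivity : (0:ℝ) ≤ (Q ^ 2) ^ 2),
    div_le_div_iff₀ (by positivity) (by positivity)]
  have : 0 ≤ Q ^ 2 := by positivity
  nlinarith

theorem nph2 (hQ : 0 < Q) (hQ2 : Q ^ 2 = t ^ 2 + (k:ℝ) ^ 2) : ‖ph2 k (t:ℂ)‖ ≤ 6 / Q ^ 3 := by
  have hk : |(k:ℝ)| ≤ Q := abs_le_of_sq_le_sq (by nlinarith [sq_nonneg t]) hQ.le
  have hk2 : |2 * (k:ℝ) ^ 3 - 6 * (k:ℝ) * t ^ 2| ≤ 6 * Q ^ 3 := by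
    have h1 : 2 * (k:ℝ) ^ 3 - 6 * (k:ℝ) * t ^ 2 = (k:ℝ) * (2 * (k:ℝ) ^ 2 - 6 * t ^ 2) := by ring
    rw [h1, abs_mul]
    have h2 : |2 * (k:ℝ) ^ 2 - 6 * t ^ 2| ≤ 6 * Q ^ 2 := by
      rw [abs_le]
      constructor <;> nlinarith [sq_nonneg t, sq_nonneg (k:ℝ)]
    calc |(k:ℝ)| * |2 * (k:ℝ) ^ 2 - 6 * t ^ 2| ≤ Q * (6 * Q ^ 2) :=
          mul_le_mul hk h2 (abs_nonneg _) hQ.le
      _ = 6 * Q ^ 3 := by ring
  have e : ph2 k (t:ℂ) = (((2 * (k:ℝ) ^ 3 - 6 * (k:ℝ) * t ^ 2) / (t ^ 2 + (k:ℝ) ^ 2) ^ 3 : ℝ) : ℂ) := by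
    simp only [ph2]; push_cast; ring
  rw [e, Complex.norm_real, Real.norm_eq_abs, abs_div, ← hQ2,
    abs_of_nonneg (by positivity : (0:ℝ) ≤ (Q ^ 2) ^ 3),
    div_le_div_iff₀ (by positivity) (by positivity)]
  calc |2 * (k:ℝ) ^ 3 - 6 * (k:ℝ) * t ^ 2| * Q ^ 3 ≤ (6 * Q ^ 3) * Q ^ 3 :=
        mul_le_mul_of_nonneg_right hk2 (by positivity)
    _ = 6 * (Q ^ 2) ^ 3 := by ring

end one

/-- the constant of the bound of `τ` -/
noncomputable def Kc : ℝ := ∑' j : ℕ, 1 / ((j:ℝ) + 1) ^ (3 / 2 : ℝ)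

theorem summ_Kc : Summable (fun j : ℕ => 1 / ((j:ℝ) + 1) ^ (3 / 2 : ℝ)) := by
  have h := (summable_nat_add_iff 1).2 (Real.summable_one_div_nat_rpow.2 (by norm_num : (1:ℝ) < 3 / 2))
  refine h.congr ?_
  intro j
  push_cast
  rfl

theorem Kc_nonneg : 0 ≤ Kc := tsum_nonneg (fun j => by positivity)

theorem term_bd {z : ℝ} (hz : 1 ≤ z) (k m : ℤ) (R : ℝ) (hR : 1 ≤ R) (hR2 : R ^ 2 = (k:ℝ) ^ 2 + (m:ℝ) ^ 2)
    (j : ℕ) : |(m:ℝ) / z * (w0 j * (|(k:ℝ)| + 2 * j) / (((m:ℝ) / z) ^ 2 + (|(k:ℝ)| + 2 * j) ^ 2) ^ 2)| ≤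
      z ^ 2 * R ^ (-(1 / 2) : ℝ) * (1 / ((j:ℝ) + 1) ^ (3 / 2 : ℝ)) := by
  set A : ℝ := |(k:ℝ)| + 2 * j with hA
  set t : ℝ := (m:ℝ) / z with ht
  have hz0 : 0 < z := by linarith
  have hj0 : (0:ℝ) ≤ (j:ℝ) := Nat.cast_nonneg j
  have hA0 : 0 ≤ A := by positivity
  have hRp : 0 < R := by linarith
  rcases hA0.eq_or_lt with h0 | hApos
  · rw [← h0]
    simp only [mul_zero, zero_div, abs_zero]
    positivity
  have hAj : (j:ℝ) + 1 ≤ A := by
    rcases Nat.eq_zero_or_pos j with h | h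
    · subst h
      simp only [Nat.cast_zero, mul_zero, add_zero, zero_add] at hA ⊢
      rw [hA] at hApos ⊢
      have hk : k ≠ 0 := by
        rintro rfl
        simp at hApos
      have := Int.one_le_abs hk
      exact_mod_cast this
    · have : (1:ℝ) ≤ (j:ℝ) := by exact_mod_cast h
      rw [hA]
      nlinarith [abs_nonneg (k:ℝ)]
  have hAk : |(k:ℝ)| ≤ A := by rw [hA]; linarith
  have hX : 0 < t ^ 2 + A ^ 2 := by positivity
  have hw : |w0 j| ≤ 1 := by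
    unfold w0
    split_ifs <;> norm_num
  have h1 : |t * (w0 j * A / (t ^ 2 + A ^ 2) ^ 2)| ≤ 1 / (t ^ 2 + A ^ 2) := by
    have e : t * (w0 j * A / (t ^ 2 + A ^ 2) ^ 2) = (w0 j * (t * A)) / (t ^ 2 + A ^ 2) ^ 2 := by ring
    rw [e, abs_div, abs_of_pos (by positivity : (0:ℝ) < (t ^ 2 + A ^ 2) ^ 2),
      div_le_div_iff₀ (by positivity) hX, one_mul, pow_two (t ^ 2 + A ^ 2)]
    apply mul_le_mul_of_nonneg_right _ hX.le
    rw [abs_mul]
    calc |w0 j| * |t * A| ≤ 1 * |t * A| := mul_le_mul_of_nonneg_right hw (abs_nonneg _)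
      _ = |t * A| := one_mul _
      _ ≤ t ^ 2 + A ^ 2 := by
        rw [abs_le]
        constructor <;> nlinarith [sq_nonneg (t + A), sq_nonneg (t - A), sq_nonneg t, sq_nonneg A]
  refine h1.trans ?_
  set X : ℝ := (m:ℝ) ^ 2 + A ^ 2 with hXdef
  have hXpos : 0 < X := by positivity
  have h2 : X ≤ z ^ 2 * (t ^ 2 + A ^ 2) := by
    have e : z ^ 2 * (t ^ 2 + A ^ 2) = (m:ℝ) ^ 2 + z ^ 2 * A ^ 2 := by
      rw [ht]; field_simp
    rw [e, hXdef]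
    have : 1 ≤ z ^ 2 := by nlinarith
    nlinarith [sq_nonneg A]
  have hXR : R ^ 2 ≤ X := by
    rw [hR2, hXdef]
    have : (k:ℝ) ^ 2 ≤ A ^ 2 := by
      rw [← sq_abs (k:ℝ)]
      exact pow_le_pow_left₀ (abs_nonneg _) hAk 2
    linarith
  have hXj : ((j:ℝ) + 1) ^ 2 ≤ X := by
    have : ((j:ℝ) + 1) ^ 2 ≤ A ^ 2 := pow_le_pow_left₀ (by positivity) hAj 2
    rw [hXdef]
    nlinarith [sq_nonneg (m:ℝ)]
  have h3 : R ^ (1 / 2 : ℝ) * ((j:ℝ) + 1) ^ (3 / 2 : ℝ) ≤ X := by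
    have e1 : R ^ (1 / 2 : ℝ) = (R ^ 2) ^ (1 / 4 : ℝ) := by
      rw [← Real.rpow_natCast R 2, ← Real.rpow_mul hRp.le]; norm_num
    have e2 : ((j:ℝ) + 1) ^ (3 / 2 : ℝ) = (((j:ℝ) + 1) ^ 2) ^ (3 / 4 : ℝ) := by
      rw [← Real.rpow_natCast ((j:ℝ) + 1) 2, ← Real.rpow_mul (by positivity)]; norm_num
    have e3 : X = X ^ (1 / 4 : ℝ) * X ^ (3 / 4 : ℝ) := by
      rw [← Real.rpow_add hXpos]; norm_num
    rw [e1, e2]
    conv_rhs => rw [e3]
    apply mul_le_mul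
    · exact Real.rpow_le_rpow (by positivity) hXR (by norm_num)
    · exact Real.rpow_le_rpow (by positivity) hXj (by norm_num)
    · positivity
    · positivity
  have h4 : 1 / (t ^ 2 + A ^ 2) ≤ z ^ 2 / X := by
    rw [div_le_div_iff₀ hX hXpos, one_mul]
    exact h2
  refine h4.trans ?_
  have h5 : z ^ 2 / X ≤ z ^ 2 / (R ^ (1 / 2 : ℝ) * ((j:ℝ) + 1) ^ (3 / 2 : ℝ)) :=
    div_le_div_of_nonneg_left (by positivity) (by positivity) h3
  refine h5.trans (le_of_eq ?_)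
  rw [Real.rpow_neg hRp.le]
  field_simp

theorem ntau {z : ℝ} (hz : 1 ≤ z) (k m : ℤ) (R : ℝ) (hR : 1 ≤ R)
    (hR2 : R ^ 2 = (k:ℝ) ^ 2 + (m:ℝ) ^ 2) :
    ‖tauc k (((m:ℝ) / z : ℝ) : ℂ)‖ ≤ z ^ 2 * R ^ (-(1 / 2) : ℝ) * Kc := by
  unfold tauc
  rw [← tsum_mul_left]
  apply tsum_of_norm_bounded (summ_Kc.hasSum.mul_left (z ^ 2 * R ^ (-(1 / 2) : ℝ)))
  intro j
  have e : (((m:ℝ) / z : ℝ) : ℂ) * ((w0 j : ℂ) * ((|(k:ℝ)| + 2 * j : ℝ) : ℂ) /
      ((((m:ℝ) / z : ℝ) : ℂ) ^ 2 + ((|(k:ℝ)| + 2 * j : ℝ) : ℂ) ^ 2) ^ 2) =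
      (((m:ℝ) / z * (w0 j * (|(k:ℝ)| + 2 * j) / (((m:ℝ) / z) ^ 2 + (|(k:ℝ)| + 2 * j) ^ 2) ^ 2) : ℝ) : ℂ) := by
    push_cast
    ring
  rw [e, Complex.norm_real, Real.norm_eq_abs]
  exact term_bd hz k m R hR hR2 j

theorem thm : EC237.ZE.G_MBD := by
  have hpi := Real.pi_pos
  have hK := Kc_nonneg
  have hw1 : 0 ≤ w1 := by unfold w1; positivity
  have hZ : 0 ≤ Z13 := by unfold Z13; positivity
  set C : ℝ := 8 * Real.pi * Kc + 100 * w1 + 10 * Real.pi ^ 2 + 10 * Z13 + 1 with hC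
  refine ⟨C, by positivity, ?_⟩
  intro z hz s
  obtain ⟨k, m⟩ := s
  have hz0 : 0 < z := by linarith
  -- general facts
  have gen : ((k, m) : ℤ × ℤ) ≠ 0 → ∃ R Q : ℝ, R = rk (k, m) ∧ 1 ≤ R ∧ R ^ 2 = (k:ℝ) ^ 2 + (m:ℝ) ^ 2 ∧
      0 < Q ∧ Q ^ 2 = ((m:ℝ) / z) ^ 2 + (k:ℝ) ^ 2 ∧ 1 / Q ≤ z / R ∧ 1 / R ≤ R ^ (-(1 / 2) : ℝ) := by
    intro hs
    have hpos : (1:ℝ) ≤ (k:ℝ) ^ 2 + (m:ℝ) ^ 2 := by
      have h1 : (1:ℤ) ≤ k ^ 2 + m ^ 2 := by
        by_contra hcon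
        have hk : k = 0 := by nlinarith [sq_nonneg k, sq_nonneg m]
        have hm : m = 0 := by nlinarith [sq_nonneg k, sq_nonneg m]
        exact hs (by rw [hk, hm]; rfl)
      exact_mod_cast h1
    have hR1 : 1 ≤ Real.sqrt ((k:ℝ) ^ 2 + (m:ℝ) ^ 2) := by
      rw [Real.one_le_sqrt]; exact hpos
    have hR2 : Real.sqrt ((k:ℝ) ^ 2 + (m:ℝ) ^ 2) ^ 2 = (k:ℝ) ^ 2 + (m:ℝ) ^ 2 :=
      Real.sq_sqrt (by positivity)
    set R := Real.sqrt ((k:ℝ) ^ 2 + (m:ℝ) ^ 2) with hRdef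
    have hRp : 0 < R := by linarith
    have hq : R ^ 2 ≤ z ^ 2 * (((m:ℝ) / z) ^ 2 + (k:ℝ) ^ 2) := by
      have e : z ^ 2 * (((m:ℝ) / z) ^ 2 + (k:ℝ) ^ 2) = (m:ℝ) ^ 2 + z ^ 2 * (k:ℝ) ^ 2 := by field_simp
      rw [e, hR2]
      have : 1 ≤ z ^ 2 := by nlinarith
      nlinarith [sq_nonneg (k:ℝ)]
    have hqpos : 0 < ((m:ℝ) / z) ^ 2 + (k:ℝ) ^ 2 := by
      by_contra hcon
      have : z ^ 2 * (((m:ℝ) / z) ^ 2 + (k:ℝ) ^ 2) ≤ 0 :=
        mul_nonpos_of_nonneg_of_nonpos (by positivity) (not_lt.1 hcon)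
      have : 0 < R ^ 2 := by positivity
      linarith
    refine ⟨R, Real.sqrt (((m:ℝ) / z) ^ 2 + (k:ℝ) ^ 2), rfl, hR1, hR2, Real.sqrt_pos.2 hqpos,
      Real.sq_sqrt hqpos.le, ?_, ?_⟩
    · rw [div_le_div_iff₀ (Real.sqrt_pos.2 hqpos) hRp, one_mul]
      apply le_of_sq_le_sq _ (by positivity)
      rw [mul_pow, Real.sq_sqrt hqpos.le]
      exact hq
    · have e : 1 / R = R ^ (-1 : ℝ) := by rw [Real.rpow_neg_one, one_div]
      rw [e]
      exact Real.rpow_le_rpow_of_exponent_le hR1 (by norm_num)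
  have htz : tz z (k, m) = (((m:ℝ) / z : ℝ) : ℂ) := by
    simp only [tz]; push_cast; rfl
  constructor
  · intro hm
    have hs : ((k, m) : ℤ × ℤ) ≠ 0 := by
      intro h
      exact hm (congrArg Prod.snd h)
    obtain ⟨R, Q, hRdef, hR1, hR2, hQ, hQ2, hQR, hRr⟩ := gen hs
    have b1 := ntau hz k m R hR1 hR2
    have b2 := nph1 k ((m:ℝ) / z) Q hQ hQ2
    have b3 := nmu k ((m:ℝ) / z) Q hQ hQ2
    rw [← hRdef]
    set r : ℝ := R ^ (-(1 / 2) : ℝ) with hr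
    have hRp : 0 < R := by linarith
    have hr0 : 0 ≤ r := by positivity
    have q1 : z⁻¹ * ‖tauc k (((m:ℝ) / z : ℝ) : ℂ)‖ ≤ z * r * Kc := by
      calc z⁻¹ * ‖tauc k (((m:ℝ) / z : ℝ) : ℂ)‖ ≤ z⁻¹ * (z ^ 2 * r * Kc) :=
            mul_le_mul_of_nonneg_left b1 (by positivity)
        _ = z * r * Kc := by field_simp
    have q0 : 1 / R ≤ 1 := by rw [div_le_one hRp]; exact hR1
    have q2 : z⁻¹ * ‖ph1 k (((m:ℝ) / z : ℝ) : ℂ)‖ ≤ z * r := by
      have h1 : 1 / Q ^ 2 ≤ (z / R) ^ 2 := by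
        rw [show 1 / Q ^ 2 = (1 / Q) ^ 2 by rw [div_pow, one_pow]]
        exact pow_le_pow_left₀ (by positivity) hQR 2
      calc z⁻¹ * ‖ph1 k (((m:ℝ) / z : ℝ) : ℂ)‖ ≤ z⁻¹ * (z / R) ^ 2 :=
            mul_le_mul_of_nonneg_left (b2.trans h1) (by positivity)
        _ = z * ((1 / R) * (1 / R)) := by field_simp
        _ ≤ z * (r * 1) := by
            apply mul_le_mul_of_nonneg_left _ hz0.le
            exact mul_le_mul hRr q0 (by positivity) hr0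
        _ = z * r := by ring
    have q3 : ‖mu0 k (((m:ℝ) / z : ℝ) : ℂ)‖ ≤ z * r := by
      calc ‖mu0 k (((m:ℝ) / z : ℝ) : ℂ)‖ ≤ z / R := b3.trans hQR
        _ = z * (1 / R) := by ring
        _ ≤ z * r := mul_le_mul_of_nonneg_left hRr hz0.le
    set T : ℝ := ‖tauc k (((m:ℝ) / z : ℝ) : ℂ)‖ with hT
    set P1 : ℝ := ‖ph1 k (((m:ℝ) / z : ℝ) : ℂ)‖ with hP1
    set M0 : ℝ := ‖mu0 k (((m:ℝ) / z : ℝ) : ℂ)‖ with hM0
    have hzr : 0 ≤ z * r := by positivity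
    constructor
    · have e : ‖yM z (k, m)‖ ≤ z⁻¹ * (8 * Real.pi / 3 * T + 4 * w1 * P1) + 2 * Real.pi ^ 2 / 9 * M0 := by
        simp only [yM, aF, bF, htz]
        refine (norm_add_le _ _).trans ?_
        apply add_le_add
        · rw [norm_mul, norm_inv, Complex.norm_real, Real.norm_eq_abs, abs_of_pos hz0]
          apply mul_le_mul_of_nonneg_left _ (by positivity)
          refine (norm_sub_le _ _).trans ?_
          rw [norm_mul, norm_mul, ← hT, ← hP1]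
          apply add_le_add
          · apply mul_le_mul_of_nonneg_right _ (norm_nonneg _)
            have : (8 * (Real.pi:ℂ) / 3) = ((8 * Real.pi / 3 : ℝ) : ℂ) := by push_cast; rfl
            rw [this, Complex.norm_real, Real.norm_eq_abs, abs_of_nonneg (by positivity)]
          · apply mul_le_mul_of_nonneg_right _ (norm_nonneg _)
            have : (4 * (w1:ℂ)) = ((4 * w1 : ℝ) : ℂ) := by push_cast; rfl
            rw [this, Complex.norm_real, Real.norm_eq_abs, abs_of_nonneg (by positivity)]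
        · rw [norm_mul, norm_neg, ← hM0]
          apply mul_le_mul_of_nonneg_right _ (norm_nonneg _)
          have : (2 * (Real.pi:ℂ) ^ 2 / 9) = ((2 * Real.pi ^ 2 / 9 : ℝ) : ℂ) := by push_cast; rfl
          rw [this, Complex.norm_real, Real.norm_eq_abs, abs_of_nonneg (by positivity)]
      have e2 : z⁻¹ * (8 * Real.pi / 3 * T + 4 * w1 * P1) + 2 * Real.pi ^ 2 / 9 * M0 ≤
          (8 * Real.pi / 3 * Kc + 4 * w1 + 2 * Real.pi ^ 2 / 9) * (z * r) := by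
        have a1 : 8 * Real.pi / 3 * (z⁻¹ * T) ≤ 8 * Real.pi / 3 * (z * r * Kc) :=
          mul_le_mul_of_nonneg_left q1 (by positivity)
        have a2 : 4 * w1 * (z⁻¹ * P1) ≤ 4 * w1 * (z * r) := mul_le_mul_of_nonneg_left q2 (by positivity)
        have a3 : 2 * Real.pi ^ 2 / 9 * M0 ≤ 2 * Real.pi ^ 2 / 9 * (z * r) :=
          mul_le_mul_of_nonneg_left q3 (by positivity)
        calc z⁻¹ * (8 * Real.pi / 3 * T + 4 * w1 * P1) + 2 * Real.pi ^ 2 / 9 * M0 =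
            8 * Real.pi / 3 * (z⁻¹ * T) + 4 * w1 * (z⁻¹ * P1) + 2 * Real.pi ^ 2 / 9 * M0 := by ring
          _ ≤ 8 * Real.pi / 3 * (z * r * Kc) + 4 * w1 * (z * r) + 2 * Real.pi ^ 2 / 9 * (z * r) :=
            add_le_add (add_le_add a1 a2) a3
          _ = _ := by ring
      refine e.trans (e2.trans ?_)
      rw [mul_assoc]
      apply mul_le_mul_of_nonneg_right _ hzr
      rw [hC]
      have : 0 ≤ Real.pi * Kc := by positivity
      have : 0 ≤ Real.pi ^ 2 := by positivity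
      linarith
    · have e : ‖vM z (k, m)‖ ≤ z⁻¹ * (8 * Real.pi * T) + Real.pi ^ 2 / 2 * M0 := by
        simp only [vM, cF, dF, htz]
        refine (norm_add_le _ _).trans ?_
        apply add_le_add
        · rw [norm_mul, norm_inv, Complex.norm_real, Real.norm_eq_abs, abs_of_pos hz0]
          apply mul_le_mul_of_nonneg_left _ (by positivity)
          rw [norm_mul, norm_neg, ← hT]
          apply mul_le_mul_of_nonneg_right _ (norm_nonneg _)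
          have : (8 * (Real.pi:ℂ)) = ((8 * Real.pi : ℝ) : ℂ) := by push_cast; rfl
          rw [this, Complex.norm_real, Real.norm_eq_abs, abs_of_nonneg (by positivity)]
        · rw [norm_mul, ← hM0]
          apply mul_le_mul_of_nonneg_right _ (norm_nonneg _)
          have : ((Real.pi:ℂ) ^ 2 / 2) = ((Real.pi ^ 2 / 2 : ℝ) : ℂ) := by push_cast; rfl
          rw [this, Complex.norm_real, Real.norm_eq_abs, abs_of_nonneg (by positivity)]
      have e2 : z⁻¹ * (8 * Real.pi * T) + Real.pi ^ 2 / 2 * M0 ≤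
          (8 * Real.pi * Kc + Real.pi ^ 2 / 2) * (z * r) := by
        have a1 : 8 * Real.pi * (z⁻¹ * T) ≤ 8 * Real.pi * (z * r * Kc) :=
          mul_le_mul_of_nonneg_left q1 (by positivity)
        have a3 : Real.pi ^ 2 / 2 * M0 ≤ Real.pi ^ 2 / 2 * (z * r) :=
          mul_le_mul_of_nonneg_left q3 (by positivity)
        calc z⁻¹ * (8 * Real.pi * T) + Real.pi ^ 2 / 2 * M0 =
            8 * Real.pi * (z⁻¹ * T) + Real.pi ^ 2 / 2 * M0 := by ring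
          _ ≤ 8 * Real.pi * (z * r * Kc) + Real.pi ^ 2 / 2 * (z * r) := add_le_add a1 a3
          _ = _ := by ring
      refine e.trans (e2.trans ?_)
      rw [mul_assoc C]
      apply mul_le_mul_of_nonneg_right _ hzr
      rw [hC]
      have : 0 ≤ Real.pi ^ 2 := by positivity
      linarith
  · intro hs
    obtain ⟨R, Q, hRdef, hR1, hR2, hQ, hQ2, hQR, hRr⟩ := gen hs
    have b1 := nph k ((m:ℝ) / z) Q hQ hQ2
    have b2 := nph2 k ((m:ℝ) / z) Q hQ hQ2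
    rw [← hRdef]
    set r : ℝ := R ^ (-(1 / 2) : ℝ) with hr
    have hRp : 0 < R := by linarith
    have hr0 : 0 ≤ r := by positivity
    have q0 : 1 / R ≤ 1 := by rw [div_le_one hRp]; exact hR1
    have hz1 : 1 ≤ z ^ 2 := by nlinarith
    have hzr : 0 ≤ z ^ 2 * r := by positivity
    have q1 : z⁻¹ * ‖ph k (((m:ℝ) / z : ℝ) : ℂ)‖ ≤ z ^ 2 * r := by
      calc z⁻¹ * ‖ph k (((m:ℝ) / z : ℝ) : ℂ)‖ ≤ z⁻¹ * (z / R) :=
            mul_le_mul_of_nonneg_left (b1.trans hQR) (by positivity)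
        _ = 1 / R := by field_simp
        _ ≤ 1 * r := by rw [one_mul]; exact hRr
        _ ≤ z ^ 2 * r := mul_le_mul_of_nonneg_right hz1 hr0
    have q2 : z * ‖ph k (((m:ℝ) / z : ℝ) : ℂ)‖ ≤ z ^ 2 * r := by
      calc z * ‖ph k (((m:ℝ) / z : ℝ) : ℂ)‖ ≤ z * (z / R) :=
            mul_le_mul_of_nonneg_left (b1.trans hQR) (by positivity)
        _ = z ^ 2 * (1 / R) := by ring
        _ ≤ z ^ 2 * r := mul_le_mul_of_nonneg_left hRr (by positivity)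
    have q3 : z⁻¹ * ‖ph2 k (((m:ℝ) / z : ℝ) : ℂ)‖ ≤ 6 * (z ^ 2 * r) := by
      have h1 : 6 / Q ^ 3 ≤ 6 * (z / R) ^ 3 := by
        rw [show 6 / Q ^ 3 = 6 * (1 / Q) ^ 3 by rw [div_pow, one_pow]; ring]
        apply mul_le_mul_of_nonneg_left _ (by norm_num)
        exact pow_le_pow_left₀ (by positivity) hQR 3
      calc z⁻¹ * ‖ph2 k (((m:ℝ) / z : ℝ) : ℂ)‖ ≤ z⁻¹ * (6 * (z / R) ^ 3) :=
            mul_le_mul_of_nonneg_left (b2.trans h1) (by positivity)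
        _ = 6 * (z ^ 2 * ((1 / R) * ((1 / R) * (1 / R)))) := by field_simp
        _ ≤ 6 * (z ^ 2 * (r * (1 * 1))) := by
            apply mul_le_mul_of_nonneg_left _ (by norm_num)
            apply mul_le_mul_of_nonneg_left _ (by positivity)
            apply mul_le_mul hRr _ (by positivity) hr0
            exact mul_le_mul q0 q0 (by positivity) (by norm_num)
        _ = 6 * (z ^ 2 * r) := by ring
    set P0 : ℝ := ‖ph k (((m:ℝ) / z : ℝ) : ℂ)‖ with hP0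
    set P2 : ℝ := ‖ph2 k (((m:ℝ) / z : ℝ) : ℂ)‖ with hP2
    constructor
    · have e : ‖e0M z (k, m)‖ ≤ 4 * w1 * (z⁻¹ * P0) := by
        simp only [e0M, htz]
        rw [norm_mul, norm_mul, norm_neg, norm_inv, Complex.norm_real, Real.norm_eq_abs, abs_of_pos hz0,
          ← hP0]
        have : (4 * (w1:ℂ)) = ((4 * w1 : ℝ) : ℂ) := by push_cast; rfl
        rw [this, Complex.norm_real, Real.norm_eq_abs, abs_of_nonneg (by positivity), mul_assoc]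
      refine e.trans ?_
      calc 4 * w1 * (z⁻¹ * P0) ≤ 4 * w1 * (z ^ 2 * r) := mul_le_mul_of_nonneg_left q1 (by positivity)
        _ ≤ C * (z ^ 2 * r) := by
            apply mul_le_mul_of_nonneg_right _ hzr
            rw [hC]
            have : 0 ≤ Real.pi * Kc := by positivity
            have : 0 ≤ Real.pi ^ 2 := by positivity
            linarith
        _ = C * z ^ 2 * r := by ring
    · have e : ‖e2M z (k, m)‖ ≤ 8 * w1 * (z⁻¹ * P2) + 4 * Z13 * (z * P0) := by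
        simp only [e2M, htz]
        refine (norm_add_le _ _).trans ?_
        apply add_le_add
        · rw [norm_mul, norm_mul, norm_neg, norm_inv, Complex.norm_real, Real.norm_eq_abs, abs_of_pos hz0,
            ← hP2]
          have : (8 * (w1:ℂ)) = ((8 * w1 : ℝ) : ℂ) := by push_cast; rfl
          rw [this, Complex.norm_real, Real.norm_eq_abs, abs_of_nonneg (by positivity), mul_assoc]
        · rw [norm_mul, norm_mul, Complex.norm_real z, Real.norm_eq_abs, abs_of_pos hz0, ← hP0]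
          have : (4 * (Z13:ℂ)) = ((4 * Z13 : ℝ) : ℂ) := by push_cast; rfl
          rw [this, Complex.norm_real, Real.norm_eq_abs, abs_of_nonneg (by positivity), mul_assoc]
      refine e.trans ?_
      calc 8 * w1 * (z⁻¹ * P2) + 4 * Z13 * (z * P0) ≤ 8 * w1 * (6 * (z ^ 2 * r)) + 4 * Z13 * (z ^ 2 * r) :=
            add_le_add (mul_le_mul_of_nonneg_left q3 (by positivity))
              (mul_le_mul_of_nonneg_left q2 (by positivity))
        _ = (48 * w1 + 4 * Z13) * (z ^ 2 * r) := by ring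
        _ ≤ C * (z ^ 2 * r) := by
            apply mul_le_mul_of_nonneg_right _ hzr
            rw [hC]
            have : 0 ≤ Real.pi * Kc := by positivity
            have : 0 ≤ Real.pi ^ 2 := by positivity
            linarith
        _ = C * z ^ 2 * r := by ring

end EC237.ZE.PkMBD
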